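import Pool.Agent.Helper17.OD.GoalsFP

/-! GRD: guards (packet of project OD). -/

namespace Pool.Agent.Helper17.OD.PkGRD

open Set

theorem thm (hPAD : G_PAD) (hAMG : G_AMG) (hRES : G_RES) (hEQV : G_EQV) (hPUN : G_PUN)
    (hPRO : G_PRO) (hPIM : G_PIM) (hPBD : G_PBD) (hLNS : G_LNS) (hDEC : G_DEC) : G_GRD := by
  intro F j x hj
  obtain ⟨pun1, pun2⟩ := hPUN F
  obtain ⟨prefl, ptrans, pdec, -, -⟩ := hPRO F
  obtain ⟨-, bdD, bmono, -, bln0, -, blow, -⟩ := hPBD F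
  obtain ⟨res1, res2, res3⟩ := hRES F
  obtain ⟨amg1, -⟩ := hAMG F
  obtain ⟨eqv1, -, -⟩ := hEQV F
  have hjκ : j ≤ F.κ := hj.le
  -- facts on restrictions
  have hrm : ∀ p ∈ F.P F.κ, res p j ∈ F.P j := fun p hp => (res1 p hp j hjκ).1
  have hrl : ∀ p ∈ F.P F.κ, F.Le j (res p j) p := fun p hp => (res1 p hp j hjκ).2.2.2.2.2.1
  have hlr : ∀ p ∈ F.P F.κ, F.Le j p (res p j) := fun p hp => (res1 p hp j hjκ).2.2.2.2.2.2.1
  have hreg : ∀ p ∈ F.P F.κ, ∀ y < ln p j, RegO (F.P j) (F.Le j) (nm p j y) := fun p hp =>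
    ((pun2 F.κ p).1 hp).ro j hj hj
  -- key unfolding at the coordinate j
  have key : ∀ i, j < i → ∀ u r : T, F.Le i u r → ln r j ≤ ln u j ∧ ∀ y < ln r j,
      ∀ v ∈ F.P j, F.Le j v u → (v ∈ nm u j y ↔ v ∈ nm r j y) := by
    intro i hi u r h
    exact (pun1 i u r).1 h j hi
  have h2 : ∀ s ∈ F.P F.κ, ∀ t ∈ F.P F.κ, F.Le (Order.succ j) t s → s ∈ Gd j x → t ∈ Gd j x := by
    intro s hs t ht hts hsG
    obtain ⟨hx, hxs⟩ := hsG
    obtain ⟨k1, k2⟩ := key _ (Order.lt_succ j) t s hts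
    refine ⟨hx.trans_le k1, ?_⟩
    rw [k2 x hx (res t j) (hrm t ht) (hrl t ht)]
    refine (hreg s hs x hx).2.1 _ hxs _ (hrm t ht) ?_
    have h1 : F.Le j t s := pdec _ _ _ _ (Order.le_succ j) hts
    exact ptrans _ _ _ _ (ptrans _ _ _ _ (hrl t ht) h1) (hlr s hs)
  refine ⟨?_, h2, ?_, ?_, ?_⟩
  · intro i hiκ hji
    have hiP : F.P i ⊆ F.P F.κ := bmono i F.κ hiκ.le
    have hsi : Order.succ j ≤ i := Order.succ_le_of_lt hji
    refine ⟨inter_subset_left, ?_, ?_⟩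
    · rintro r ⟨hr, hrG⟩ s hs hsr
      exact ⟨hs, h2 r (hiP hr) s (hiP hs) (pdec _ _ _ _ hsi hsr) hrG⟩
    · intro r hr H
      have hrκ := hiP hr
      -- membership in P i of conditions equal to r above i
      have hmi : ∀ q ∈ F.P F.κ, (∀ i' < F.κ, i ≤ i' → ln q i' = ln r i') → q ∈ F.P i := by
        intro q hq h
        refine blow q hq i hiκ ?_
        intro i' hi'
        by_cases hk : i' < F.κ
        · rw [h i' hk hi']
          exact bln0 i r hr i' hi'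
        · exact bln0 F.κ q hq i' (not_lt.1 hk)
      obtain ⟨u, hu, hur, hu', huG⟩ := H r hr (prefl i r)
      have hxη : x < F.η j := by
        have h3 : ln u j < F.η j := ((pun2 F.κ u).1 (hiP hu)).len j hj hj
        exact huG.1.trans h3
      have hx : x < ln r j := by
        by_contra hnx
        rw [not_lt] at hnx
        have hsx : Order.succ x < F.η j := (F.e.lim j hj).succ_lt hxη
        obtain ⟨q, hq, hqr, hlq, -, hem, hoth⟩ :=
          (hPAD F j hj r hrκ (Order.succ x) hsx (hnx.trans (Order.le_succ x))).1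
        have hqi : q ∈ F.P i := hmi q hq (fun i' h1 h2 => (hoth i' h1 (hji.trans_le h2).ne').1)
        have hqri : F.Le i q r := pdec _ _ _ _ hiκ.le hqr
        obtain ⟨v, hv, hvq, -, hvG⟩ := H q hqi hqri
        have h4 := ((key i hji v q hvq).2 x (by rw [hlq]; exact Order.lt_succ x) (res v j)
          (hrm v (hiP hv)) (hrl v (hiP hv))).1 hvG.2
        rw [hem x hnx] at h4
        exact h4
      refine ⟨hr, hx, ?_⟩
      refine (hreg r hrκ x hx).2.2 _ (hrm r hrκ) ?_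
      intro s hs hsr
      have hsr' : F.Le j s r := ptrans _ _ _ _ hsr (hrl r hrκ)
      obtain ⟨a1, a2, a3, a4, -, -, -, -⟩ := amg1 j hj s hs r hrκ hsr'
      have hai : am s r j ∈ F.P i := hmi _ a1 (fun i' h1 h2 => (a3 i' (hji.le.trans h2) h1).1)
      obtain ⟨v, hv, hvq, -, hvG⟩ := H _ hai (pdec _ _ _ _ hiκ.le a4)
      have hvr : F.Le i v r := ptrans _ _ _ _ hvq (pdec _ _ _ _ hiκ.le a4)
      refine ⟨res v j, hrm v (hiP hv), ?_, ?_⟩
      · have h5 : F.Le j (am s r j) s := (eqv1 j (am s r j) s s a2).2.2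
        exact ptrans _ _ _ _ (ptrans _ _ _ _ (hrl v (hiP hv)) (pdec _ _ _ _ hji.le hvq)) h5
      · exact ((key i hji v r hvr).2 x hx (res v j) (hrm v (hiP hv)) (hrl v (hiP hv))).1 hvG.2
  · intro s hs i hi hji
    obtain ⟨r1, r2, r3, r4, -⟩ := res1 s hs i hi.le
    have h5 : res (res s i) j = res s j := r4 j hji.le
    obtain ⟨e1, e2⟩ := r2 j hji
    constructor
    · rintro ⟨g1, g2⟩
      have g3 : x < ln (res s i) j := by rw [e1]; exact g1
      refine ⟨g3, ?_⟩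
      rw [h5, e2 x g3]
      exact g2
    · rintro ⟨g1, g2⟩
      have g3 : x < ln s j := by rw [← e1]; exact g1
      refine ⟨g3, ?_⟩
      rw [h5, e2 x g1] at g2
      exact g2
  · intro s t hst hs ht
    have h6 : res s j = res t j :=
      res2 s hs t ht j hjκ (fun i hi => hst i (hi.trans (Order.lt_succ j)))
    obtain ⟨e1, e2⟩ := hst j (Order.lt_succ j)
    constructor
    · rintro ⟨g1, g2⟩
      have g3 : x < ln t j := by rw [← e1]; exact g1
      refine ⟨g3, ?_⟩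
      rw [← h6, ← e2 x g1]
      exact g2
    · rintro ⟨g1, g2⟩
      have g3 : x < ln s j := by rw [e1]; exact g1
      refine ⟨g3, ?_⟩
      rw [h6, e2 x g3]
      exact g2
  · haveI hM : SOM F.γ F.M F.M := F.g.m1
    have hκγ : F.κ < F.γ := F.g.kg
    have hjγ : j < F.γ := hj.trans hκγ
    have hPM : F.P F.κ ∈ F.M := (hPIM F).2.2 F.κ le_rfl
    have hD := (hDEC F.γ F.M F.M hM).1
    have hL := hLNS F.γ F.M F.M hM
    -- the relation of restriction
    let R : T → T → T → Prop := fun a b c => ∃ i ≤ F.κ, a = .ord i ∧ b ∈ F.P F.κ ∧ c = res b i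
    have hR : SD F.γ F.M F.M (fun e _ => R e.fst e.snd.fst e.snd.snd) := res3
    have hL3 : SD F.γ F.M F.M (fun e _ => LnT e.snd (.ord j) e.fst) :=
      SD.app3 (R := LnT) hL (ST.snd ST.id) (ST.ordc hjγ) (ST.fst ST.id)
    have hS : SD F.γ F.M F.M (fun e _ => ∃ r ∈ D (Iio F.γ), R (.ord j) e.snd r ∧
        (e.snd ∈ F.P F.κ ∧ (LnT e.snd (.ord j) e.fst ∧
          Tr.pr (.ord j) (.pr (.nat 1) (.pr e.fst r)) ∈ dec e.snd))) := by
      refine SD.exT (P := fun e r _ => R (.ord j) e.snd r ∧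
        (e.snd ∈ F.P F.κ ∧ (LnT e.snd (.ord j) e.fst ∧
          Tr.pr (.ord j) (.pr (.nat 1) (.pr e.fst r)) ∈ dec e.snd))) ?_
      refine SD.and ?_ (SD.and ?_ (SD.and ?_ ?_))
      · exact SD.app3 (R := R) hR (ST.ordc hjγ) (ST.snd (ST.snd ST.id)) (ST.fst ST.id)
      · exact SD.mem (ST.snd (ST.snd ST.id)) (SV.par hPM)
      · exact SD.app3 (R := LnT) hL (ST.snd (ST.snd ST.id)) (ST.ordc hjγ) (ST.fst (ST.snd ST.id))
      · exact SD.app2 (R := fun a b => a ∈ dec b) hD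
          (ST.pr (ST.ordc hjγ) (ST.pr (ST.nat 1) (ST.pr (ST.fst (ST.snd ST.id)) (ST.fst ST.id))))
          (ST.snd (ST.snd ST.id))
    refine hS.congr ?_
    intro e he σ hσ
    constructor
    · rintro ⟨r, hr, ⟨i, hi, hij, hP, hres⟩, hP', ⟨i', y, hi', hy, hyl⟩, hd⟩
      have e1 : j = i := by injection hij
      have e2 : j = i' := by injection hi'
      subst e1
      subst e2
      refine ⟨y, hy, hP', hyl, ?_⟩
      rw [← hres]
      rw [hy] at hd
      exact hd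
    · rintro ⟨y, hy, hP, hG1, hG2⟩
      refine ⟨res e.snd j, ?_, ⟨j, hjκ, rfl, hP, rfl⟩, hP, ⟨j, y, rfl, hy, hG1⟩, ?_⟩
      · exact D_mono (Iio_subset_Iio hκγ.le) (bdD j (hrm _ hP))
      · rw [hy]
        exact hG2

end Pool.Agent.Helper17.OD.PkGRD
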