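import Pool.Agent.Helper17.OD.GoalsFP

/-! Auxiliary lemmas on definable sequences (project OD). -/

namespace Pool.Agent.Helper17.OD.Pk52

open Set

variable {k : O} {S : Set (Set T)}

/-- The relation of a sequence of trees. -/
theorem sdQ [h : SOM k S S] {l : O} {q : O → T} (hq : grt l q ∈ S) :
    SD k S S (fun e _ => ∃ x < l, e.fst = .ord x ∧ e.snd = q x) := by
  have h1 : SD k S S (fun e _ => Tr.pr e.fst e.snd ∈ grt l q) :=
    SD.mem (ST.pr (ST.fst ST.id) (ST.snd ST.id)) (SV.par hq)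
  refine h1.congr ?_
  intro e _ σ _
  constructor
  · rintro ⟨x, hx, hp⟩
    injection hp with h2 h3
    exact ⟨x, hx, h2, h3⟩
  · rintro ⟨x, hx, h2, h3⟩
    exact ⟨x, hx, by rw [h2, h3]⟩

/-- The relation of a sequence of ordinals. -/
theorem sdG [h : SOM k S S] {l : O} {f : O → O} (hq : gro l f ∈ S) :
    SD k S S (fun e _ => ∃ x < l, e.fst = .ord x ∧ e.snd = .ord (f x)) :=
  sdQ (q := fun x => .ord (f x)) hq

/-- Equality of the length, from `G_LNS`. -/
theorem sdLnE (hLNS : G_LNS) [h : SOM k S S] :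
    SD k S S (fun e _ => ∃ i y : O, e.snd.fst = .ord i ∧ e.snd.snd = .ord y ∧ ln e.fst i = y) := by
  have hL := hLNS k S S h
  have h1 : SD k S S (fun e _ => e.snd.fst.IsOrd ∧ (e.snd.snd.IsOrd ∧ ∀ z ∈ D (Iio k),
      (z.IsOrd → (z.llt e.snd.snd ↔ LnT e.fst e.snd.fst z)))) := by
    refine SD.and (SD.isOrd (ST.fst (ST.snd ST.id))) (SD.and (SD.isOrd (ST.snd (ST.snd ST.id))) ?_)
    refine SD.allT (P := fun e z _ => (z.IsOrd → (z.llt e.snd.snd ↔ LnT e.fst e.snd.fst z))) ?_
    refine SD.imp (SD.isOrd (ST.fst ST.id)) (SD.iff (SD.llt (ST.fst ST.id)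
      (ST.snd (ST.snd (ST.snd ST.id)))) ?_)
    exact SD.app3 (R := LnT) hL (ST.fst (ST.snd ST.id)) (ST.fst (ST.snd (ST.snd ST.id)))
      (ST.fst ST.id)
  refine h1.congr ?_
  intro e he σ _
  constructor
  · rintro ⟨h2, h3, h4⟩
    cases h5 : e.snd.fst with
    | nat n => rw [h5] at h2; exact h2.elim
    | pr a b => rw [h5] at h2; exact h2.elim
    | ord i =>
      cases h6 : e.snd.snd with
      | nat n => rw [h6] at h3; exact h3.elim
      | pr a b => rw [h6] at h3; exact h3.elim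
      | ord y =>
        have hy : y < k := by
          have := snd_mem (snd_mem he)
          rw [h6, ord_mem] at this
          exact this
        refine ⟨i, y, rfl, rfl, ?_⟩
        rw [h5, h6] at h4
        rcases lt_trichotomy (ln e.fst i) y with h7 | h7 | h7
        · have h8 := (h4 (.ord (ln e.fst i)) (ord_mem.2 (h7.trans hy)) trivial).1 h7
          obtain ⟨i', x', h9, h10, h11⟩ := h8
          injection h9 with h9
          injection h10 with h10
          subst h9
          rw [← h10] at h11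
          exact (lt_irrefl _ h11).elim
        · exact h7
        · have h8 := (h4 (.ord y) (ord_mem.2 hy) trivial).2 ⟨i, y, rfl, rfl, h7⟩
          exact (lt_irrefl y h8).elim
  · rintro ⟨i, y, h5, h6, h7⟩
    rw [h5, h6]
    refine ⟨trivial, trivial, ?_⟩
    intro z _ hz
    cases z with
    | nat n => exact hz.elim
    | pr a b => exact hz.elim
    | ord z =>
      constructor
      · intro h8
        refine ⟨i, z, rfl, rfl, ?_⟩
        rw [h7]
        exact h8
      · rintro ⟨i', x', h9, h10, h11⟩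
        injection h9 with h9
        injection h10 with h10
        subst h9
        rw [← h10, h7] at h11
        exact h11

/-- A definable bounded sequence of ordinals is in `S`. -/
theorem gro_mem [h : SOM k S S] {a d : O} {f : O → O}
    (hf : SD k S S (fun e _ => ∃ x < a, e.fst = .ord x ∧ e.snd = .ord (f x))) (ha : a ≤ d)
    (hk : ∀ x < a, f x < d) (hd : d < k) : gro a f ∈ S := by
  refine SOM.of_SD (S := S) hd ?_ ?_
  · rintro _ ⟨x, hx, rfl⟩
    exact pr_mem.2 ⟨ord_mem.2 (hx.trans_le ha), ord_mem.2 (hk x hx)⟩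
  · have h1 : SD k S S (fun e _ => e = .pr e.fst e.snd ∧
        ∃ x < a, e.fst = .ord x ∧ e.snd = .ord (f x)) :=
      SD.and (SD.eq ST.id (ST.pr (ST.fst ST.id) (ST.snd ST.id))) hf
    refine h1.congr ?_
    intro e _ σ _
    constructor
    · rintro ⟨h2, x, hx, h3, h4⟩
      exact ⟨x, hx, by rw [h2, h3, h4]⟩
    · rintro ⟨x, hx, rfl⟩
      exact ⟨rfl, x, hx, rfl, rfl⟩

/-- A definable bounded sequence of trees is in `S`. -/
theorem grt_mem [h : SOM k S S] {a d : O} {f : O → T}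
    (hf : SD k S S (fun e _ => ∃ x < a, e.fst = .ord x ∧ e.snd = f x)) (ha : a ≤ d)
    (hk : ∀ x < a, f x ∈ D (Iio d)) (hd : d < k) : grt a f ∈ S := by
  refine SOM.of_SD (S := S) hd ?_ ?_
  · rintro _ ⟨x, hx, rfl⟩
    exact pr_mem.2 ⟨ord_mem.2 (hx.trans_le ha), hk x hx⟩
  · have h1 : SD k S S (fun e _ => e = .pr e.fst e.snd ∧
        ∃ x < a, e.fst = .ord x ∧ e.snd = f x) :=
      SD.and (SD.eq ST.id (ST.pr (ST.fst ST.id) (ST.snd ST.id))) hf
    refine h1.congr ?_
    intro e _ σ _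
    constructor
    · rintro ⟨h2, x, hx, h3, h4⟩
      exact ⟨x, hx, by rw [h2, h3, h4]⟩
    · rintro ⟨x, hx, rfl⟩
      exact ⟨rfl, x, hx, rfl, rfl⟩

/-- A set of trees with leaves below `d` is in `S`. -/
theorem D_mem [h : SOM k S S] {d : O} (hd : d < k) : D (Iio d) ∈ S := by
  have := SOM.sep (S := S) (S' := S) (k := k) (P := fun _ => True) SD.const hd
  simpa using this

/-- Regularity: definable sequences of length below `μ` of ordinals below `μ` are bounded. -/
theorem bound [h : SOM k S S] {μ l : O} (hμ : MReg S μ) (hμ0 : 0 < μ) (hμk : μ < k) (hl : l < μ)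
    (v : O → O) (hv : ∀ x < l, v x < μ)
    (hR : SD k S S (fun e _ => ∃ x < l, e.fst = .ord x ∧ e.snd = .ord (v x))) :
    ∃ b < μ, ∀ x < l, v x < b := by
  classical
  let f : T → T := fun t => match t with
    | .ord x => .ord (v x)
    | _ => .ord 0
  have hf1 : ∀ x ∈ D (Iio l), (f x).IsOrd ∧ f x ∈ D (Iio μ) := by
    intro x hx
    cases x with
    | nat n => exact ⟨trivial, ord_mem.2 hμ0⟩
    | pr a b => exact ⟨trivial, ord_mem.2 hμ0⟩
    | ord x => exact ⟨trivial, ord_mem.2 (hv x (ord_mem.1 hx))⟩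
  have hf2 : gr (D (Iio l)) f ∈ S := by
    refine SOM.of_SD (S := S) hμk ?_ ?_
    · rintro _ ⟨x, hx, rfl⟩
      exact pr_mem.2 ⟨D_mono (Iio_subset_Iio hl.le) hx, (hf1 x hx).2⟩
    · have h1 : SD k S S (fun e _ => e = .pr e.fst e.snd ∧ (e.fst ∈ D (Iio l) ∧
          ((∃ x < l, e.fst = .ord x ∧ e.snd = .ord (v x)) ∨
            (¬ e.fst.IsOrd ∧ e.snd = .ord 0)))) := by
        refine SD.and (SD.eq ST.id (ST.pr (ST.fst ST.id) (ST.snd ST.id))) (SD.and ?_ (SD.or hR ?_))
        · exact SD.mem (ST.fst ST.id) (SV.par (D_mem (hl.trans hμk)))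
        · exact SD.and (SD.not (SD.isOrd (ST.fst ST.id)))
            (SD.eq (ST.snd ST.id) (ST.ordc (hμ0.trans hμk)))
      refine h1.congr ?_
      intro e _ σ _
      constructor
      · rintro ⟨h2, h3, h4⟩
        refine ⟨e.fst, h3, ?_⟩
        rcases h4 with ⟨x, hx, h5, h6⟩ | ⟨h5, h6⟩
        · conv_lhs => rw [h2]
          rw [h6, h5]
        · conv_lhs => rw [h2]
          rw [h6]
          cases h7 : e.fst with
          | nat n => rfl
          | pr a b => rfl
          | ord x => rw [h7] at h5; exact (h5 trivial).elim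
      · rintro ⟨x, hx, rfl⟩
        refine ⟨rfl, hx, ?_⟩
        cases x with
        | nat n => exact Or.inr ⟨fun h => h, rfl⟩
        | pr a b => exact Or.inr ⟨fun h => h, rfl⟩
        | ord x => exact Or.inl ⟨x, ord_mem.1 hx, rfl, rfl⟩
  obtain ⟨b, hb, hb'⟩ := hμ l hl f hf1 hf2
  exact ⟨b, hb, fun x hx => ord_mem.1 (hb' (.ord x) (ord_mem.2 hx))⟩

theorem limL_lt {q : O → T} {l i z : O} (hne : ∃ a, ∀ x < l, ln (q x) i ≤ a) :
    z < limL q l i ↔ ∃ x < l, z < ln (q x) i := by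
  constructor
  · intro h
    by_contra hc
    push Not at hc
    have : limL q l i ≤ z := csInf_le' hc
    exact absurd h (not_lt.2 this)
  · rintro ⟨x, hx, hz⟩
    have hm : limL q l i ∈ {a | ∀ x < l, ln (q x) i ≤ a} := csInf_mem hne
    exact hz.trans_le (hm x hx)

/-- The function `h` of first indices is in `M`. -/
theorem first_mem (hLNS : G_LNS) {k : O} {S : Set (Set T)} [h : SOM k S S] {l w i d : O}
    (hi : i < k) {q : O → T} {f g : O → O} (hqD : ∀ x < l, q x ∈ D (Iio k))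
    (hq : grt l q ∈ S) (hf : gro w f ∈ S) (hfk : ∀ x < w, f x < k)
    (hg : ∀ x < w, g x < l ∧ f x < ln (q (g x)) i ∧ ∀ y < g x, ¬ f x < ln (q y) i)
    (hlk : l ≤ k) (hw : w ≤ d) (hld : l ≤ d) (hd : d < k) : gro w g ∈ S := by
  have hL := hLNS k S S h
  let H : T → T → Prop := fun a b => ∃ p ∈ D (Iio k), ((∃ y < l, a = .ord y ∧ p = q y) ∧
    LnT p (.ord i) b)
  have hH : SD k S S (fun e _ => H e.fst e.snd) := by
    refine SD.exT (P := fun e p _ => ((∃ y < l, e.fst = .ord y ∧ p = q y) ∧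
      LnT p (.ord i) e.snd)) (SD.and ?_ ?_)
    · exact SD.app2 (R := fun a p => ∃ y < l, a = .ord y ∧ p = q y) (sdQ hq)
        (ST.fst (ST.snd ST.id)) (ST.fst ST.id)
    · exact SD.app3 (R := LnT) hL (ST.fst ST.id) (ST.ordc hi) (ST.snd (ST.snd ST.id))
  have hH' : ∀ a b : O, H (.ord a) (.ord b) ↔ a < l ∧ b < ln (q a) i := by
    intro a b
    constructor
    · rintro ⟨p, -, ⟨y, hy, h1, rfl⟩, i', x, h2, h3, h4⟩
      injection h1 with h1
      injection h2 with h2
      injection h3 with h3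
      subst h1 h2 h3
      exact ⟨hy, h4⟩
    · rintro ⟨h1, h2⟩
      exact ⟨q a, hqD a h1, ⟨a, h1, rfl, rfl⟩, i, b, rfl, rfl, h2⟩
  refine gro_mem (d := d) ?_ hw (fun x hx => (hg x hx).1.trans_le hld) hd
  have h1 : SD k S S (fun e _ => ∃ t ∈ D (Iio k), ((∃ x < w, e.fst = .ord x ∧ t = .ord (f x)) ∧
      (e.snd.IsOrd ∧ (H e.snd t ∧ ∀ z ∈ D (Iio k), (z.IsOrd → (z.llt e.snd → ¬ H z t)))))) := by
    refine SD.exT (P := fun e t _ => ((∃ x < w, e.fst = .ord x ∧ t = .ord (f x)) ∧
      (e.snd.IsOrd ∧ (H e.snd t ∧ ∀ z ∈ D (Iio k), (z.IsOrd → (z.llt e.snd → ¬ H z t)))))) ?_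
    refine SD.and ?_ (SD.and ?_ (SD.and ?_ ?_))
    · exact SD.app2 (R := fun a t => ∃ x < w, a = .ord x ∧ t = .ord (f x)) (sdG hf)
        (ST.fst (ST.snd ST.id)) (ST.fst ST.id)
    · exact SD.isOrd (ST.snd (ST.snd ST.id))
    · exact SD.app2 (R := H) hH (ST.snd (ST.snd ST.id)) (ST.fst ST.id)
    · refine SD.allT (P := fun e z _ => (z.IsOrd → (z.llt e.snd.snd → ¬ H z e.fst))) ?_
      refine SD.imp (SD.isOrd (ST.fst ST.id)) (SD.imp (SD.llt (ST.fst ST.id)
        (ST.snd (ST.snd (ST.snd ST.id)))) (SD.not ?_))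
      exact SD.app2 (R := H) hH (ST.fst ST.id) (ST.fst (ST.snd ST.id))
  refine h1.congr ?_
  intro e he σ _
  constructor
  · rintro ⟨t, -, ⟨x, hx, h2, rfl⟩, h3, h4, h5⟩
    refine ⟨x, hx, h2, ?_⟩
    cases h6 : e.snd with
    | nat n => rw [h6] at h3; exact h3.elim
    | pr a b => rw [h6] at h3; exact h3.elim
    | ord y =>
      rw [h6] at h4 h5
      have h7 := (hH' y (f x)).1 h4
      obtain ⟨g1, g2, g3⟩ := hg x hx
      rcases lt_trichotomy y (g x) with h8 | h8 | h8
      · exact (g3 y h8 h7.2).elim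
      · rw [h8]
      · exact (h5 (.ord (g x)) (ord_mem.2 (g1.trans_le hlk)) trivial h8
          ((hH' _ _).2 ⟨g1, g2⟩)).elim
  · rintro ⟨x, hx, h2, h3⟩
    obtain ⟨g1, g2, g3⟩ := hg x hx
    refine ⟨.ord (f x), ord_mem.2 (hfk x hx), ⟨x, hx, h2, rfl⟩, ?_, ?_, ?_⟩
    · rw [h3]; trivial
    · rw [h3]; exact (hH' _ _).2 ⟨g1, g2⟩
    · intro z _ hz hz'
      rw [h3] at hz'
      cases z with
      | nat n => exact hz.elim
      | pr a b => exact hz.elim
      | ord z =>
        intro h4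
        exact g3 z hz' ((hH' _ _).1 h4).2

/-- Composition with a function on ordinals. -/
theorem comp_mem {k : O} {S : Set (Set T)} [h : SOM k S S] {w w' d : O}
    {f g : O → O} (hf : gro w' f ∈ S) (hg : gro w g ∈ S) (hgw : ∀ x < w, g x < w') (hw' : w' ≤ k)
    (hw : w ≤ d) (hfd : ∀ x < w', f x < d) (hd : d < k) : gro w (fun x => f (g x)) ∈ S := by
  refine gro_mem (d := d) ?_ hw (fun x hx => hfd _ (hgw x hx)) hd
  have h1 : SD k S S (fun e _ => ∃ t ∈ D (Iio k), ((∃ x < w, e.fst = .ord x ∧ t = .ord (g x)) ∧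
      (∃ x < w', t = .ord x ∧ e.snd = .ord (f x)))) := by
    refine SD.exT (P := fun e t _ => ((∃ x < w, e.fst = .ord x ∧ t = .ord (g x)) ∧
      (∃ x < w', t = .ord x ∧ e.snd = .ord (f x)))) (SD.and ?_ ?_)
    · exact SD.app2 (R := fun a t => ∃ x < w, a = .ord x ∧ t = .ord (g x)) (sdG hg)
        (ST.fst (ST.snd ST.id)) (ST.fst ST.id)
    · exact SD.app2 (R := fun a t => ∃ x < w', a = .ord x ∧ t = .ord (f x)) (sdG hf)
        (ST.fst ST.id) (ST.snd (ST.snd ST.id))
  refine h1.congr ?_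
  intro e he σ _
  constructor
  · rintro ⟨t, -, ⟨x, hx, h2, rfl⟩, x', hx', h3, h4⟩
    injection h3 with h3
    subst h3
    exact ⟨x, hx, h2, h4⟩
  · rintro ⟨x, hx, h2, h3⟩
    exact ⟨.ord (g x), ord_mem.2 ((hgw x hx).trans_le hw'), ⟨x, hx, h2, rfl⟩, g x, hgw x hx,
      rfl, h3⟩

/-- The predecessor function. -/
theorem pred_mem {k : O} {S : Set (Set T)} [h : SOM k S S] {w d : O}
    {f g : O → O} (hf : gro w f ∈ S) (hg : ∀ x < w, f x = Order.succ (g x))
    (hw : w ≤ d) (hfd : ∀ x < w, f x < d) (hd : d < k) : gro w g ∈ S := by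
  have hgd : ∀ x < w, g x < d := fun x hx => by
    have := hfd x hx
    rw [hg x hx] at this
    exact (Order.lt_succ _).trans this
  refine gro_mem (d := d) ?_ hw hgd hd
  have h1 : SD k S S (fun e _ => ∃ t ∈ D (Iio k), ((∃ x < w, e.fst = .ord x ∧ t = .ord (f x)) ∧
      (e.snd.IsOrd ∧ (e.snd.llt t ∧ ∀ z ∈ D (Iio k), (z.IsOrd → (z.llt t →
        (z = e.snd ∨ z.llt e.snd))))))) := by
    refine SD.exT (P := fun e t _ => ((∃ x < w, e.fst = .ord x ∧ t = .ord (f x)) ∧
      (e.snd.IsOrd ∧ (e.snd.llt t ∧ ∀ z ∈ D (Iio k), (z.IsOrd → (z.llt t →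
        (z = e.snd ∨ z.llt e.snd))))))) ?_
    refine SD.and ?_ (SD.and ?_ (SD.and ?_ ?_))
    · exact SD.app2 (R := fun a t => ∃ x < w, a = .ord x ∧ t = .ord (f x)) (sdG hf)
        (ST.fst (ST.snd ST.id)) (ST.fst ST.id)
    · exact SD.isOrd (ST.snd (ST.snd ST.id))
    · exact SD.llt (ST.snd (ST.snd ST.id)) (ST.fst ST.id)
    · refine SD.allT (P := fun e z _ => (z.IsOrd → (z.llt e.fst →
        (z = e.snd.snd ∨ z.llt e.snd.snd)))) ?_
      refine SD.imp (SD.isOrd (ST.fst ST.id)) (SD.imp (SD.llt (ST.fst ST.id)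
        (ST.fst (ST.snd ST.id))) (SD.or ?_ ?_))
      · exact SD.eq (ST.fst ST.id) (ST.snd (ST.snd (ST.snd ST.id)))
      · exact SD.llt (ST.fst ST.id) (ST.snd (ST.snd (ST.snd ST.id)))
  refine h1.congr ?_
  intro e he σ _
  constructor
  · rintro ⟨t, -, ⟨x, hx, h2, rfl⟩, h3, h4, h5⟩
    refine ⟨x, hx, h2, ?_⟩
    cases h6 : e.snd with
    | nat n => rw [h6] at h3; exact h3.elim
    | pr a b => rw [h6] at h3; exact h3.elim
    | ord y =>
      rw [h6] at h4 h5
      have h7 : y < f x := h4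
      rw [hg x hx, Order.lt_succ_iff] at h7
      rcases h5 (.ord (g x)) (ord_mem.2 ((hgd x hx).trans hd)) trivial (by
        change g x < f x
        rw [hg x hx]
        exact Order.lt_succ _) with h8 | h8
      · exact h8.symm
      · exact absurd h7 (not_le.2 h8)
  · rintro ⟨x, hx, h2, h3⟩
    refine ⟨.ord (f x), ord_mem.2 ((hfd x hx).trans hd), ⟨x, hx, h2, rfl⟩, ?_, ?_, ?_⟩
    · rw [h3]; trivial
    · rw [h3]
      change g x < f x
      rw [hg x hx]
      exact Order.lt_succ _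
    · intro z _ hz hz'
      rw [h3]
      cases z with
      | nat n => exact hz.elim
      | pr a b => exact hz.elim
      | ord z =>
        have h4 : z < f x := hz'
        rw [hg x hx, Order.lt_succ_iff] at h4
        rcases h4.lt_or_eq with h5 | h5
        · exact Or.inr h5
        · exact Or.inl (by rw [h5])

/-- The successor function is in `M`. -/
theorem succ_mem {k : O} {S : Set (Set T)} [h : SOM k S S] {w : O}
    (hw : Order.IsSuccLimit w) (hwk : w < k) : gro w (fun x => Order.succ x) ∈ S := by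
  refine gro_mem (d := w) ?_ le_rfl (fun x hx => hw.succ_lt hx) hwk
  have h1 : SD k S S (fun e _ => (e.fst.IsOrd ∧ (e.snd.IsOrd ∧ (e.fst.llt (.ord w) ∧ 
      (e.fst.llt e.snd ∧ ∀ z ∈ D (Iio k), (z.IsOrd → (z.llt e.snd →
        (z = e.fst ∨ z.llt e.fst)))))))) := by
    refine SD.and (SD.isOrd (ST.fst ST.id)) (SD.and (SD.isOrd (ST.snd ST.id)) (SD.and ?_
      (SD.and ?_ ?_)))
    · exact SD.llt (ST.fst ST.id) (ST.ordc hwk)
    · exact SD.llt (ST.fst ST.id) (ST.snd ST.id)
    · refine SD.allT (P := fun e z _ => (z.IsOrd → (z.llt e.snd →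
        (z = e.fst ∨ z.llt e.fst)))) ?_
      refine SD.imp (SD.isOrd (ST.fst ST.id)) (SD.imp (SD.llt (ST.fst ST.id)
        (ST.snd (ST.snd ST.id))) (SD.or ?_ ?_))
      · exact SD.eq (ST.fst ST.id) (ST.fst (ST.snd ST.id))
      · exact SD.llt (ST.fst ST.id) (ST.fst (ST.snd ST.id))
  refine h1.congr ?_
  intro e he σ _
  constructor
  · rintro ⟨h2, h3, h4, h5, h6⟩
    cases h7 : e.fst with
    | nat n => rw [h7] at h2; exact h2.elim
    | pr a b => rw [h7] at h2; exact h2.elim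
    | ord x =>
      cases h8 : e.snd with
      | nat n => rw [h8] at h3; exact h3.elim
      | pr a b => rw [h8] at h3; exact h3.elim
      | ord y =>
        rw [h7] at h4 h5 h6
        rw [h8] at h5 h6
        have h9 : x < w := h4
        refine ⟨x, h9, rfl, ?_⟩
        have h10 : x < y := h5
        congr 1
        refine le_antisymm ?_ (Order.succ_le_of_lt h10)
        by_contra h11
        rw [not_le] at h11
        rcases h6 (.ord (Order.succ x)) (ord_mem.2 ((hw.succ_lt h9).trans hwk)) trivial h11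
          with h12 | h12
        · injection h12 with h12
          exact absurd h12 (Order.lt_succ x).ne'
        · exact absurd (Order.lt_succ x) (not_lt.2 (le_of_lt h12))
  · rintro ⟨x, hx, h2, h3⟩
    rw [h2, h3]
    refine ⟨trivial, trivial, hx, Order.lt_succ x, ?_⟩
    intro z _ hz hz'
    cases z with
    | nat n => exact hz.elim
    | pr a b => exact hz.elim
    | ord z =>
      have h4 : z < Order.succ x := hz'
      rw [Order.lt_succ_iff] at h4
      rcases h4.lt_or_eq with h5 | h5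
      · exact Or.inr h5
      · exact Or.inl (by rw [h5])


end Pool.Agent.Helper17.OD.Pk52
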