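import Pool.Agent.Helper17.OD.GoalsGE
import Pool.Agent.Helper52.OD.Base

/-! GX1: the generic sets of ordinals (packet of project OD). -/

namespace Pool.Agent.Helper17.OD.PkGX1

open Set Pk52

theorem thm (hNMB : G_NMB) (hGNF : G_GNF) (hPAD : G_PAD) (hAMG : G_AMG) (hRES : G_RES)
    (hPUN : G_PUN) (hPIM : G_PIM) (hPRO : G_PRO) (hKSM : G_KSM) (hPBD : G_PBD) (hEQV : G_EQV)
    (hGRD : G_GRD) : G_GX1 := by
  intro F G hG j hj
  have hM : SOM F.γ F.M F.M := F.g.m1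
  obtain ⟨pun1, pun2⟩ := hPUN F
  obtain ⟨prefl, ptrans, pdec, -, -⟩ := hPRO F
  obtain ⟨-, bdD, bmono, -, bln0, -, blow, -⟩ := hPBD F
  obtain ⟨res1, res2, res3⟩ := hRES F
  obtain ⟨amg1, -⟩ := hAMG F
  obtain ⟨eqv1, -, -⟩ := hEQV F
  obtain ⟨pim1, pim2, pim3⟩ := hPIM F
  obtain ⟨gn1, gn2, gn3, gn4⟩ := hGNF F G hG
  have hκγ : F.κ < F.γ := F.g.kg
  have hηκ : F.η j < F.κ := F.e.lt j hj
  have hPM : F.P F.κ ∈ F.M := pim3 F.κ le_rfl
  have hsj : Order.succ j < F.κ := F.g.klim.succ_lt hj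
  have hjs : j < Order.succ j := Order.lt_succ j
  have hDκγ : D (Iio F.κ) ⊆ D (Iio F.γ) := D_mono (Iio_subset_Iio hκγ.le)
  have hln : ∀ p ∈ F.P F.κ, ln p j < F.η j := fun p hp => ((pun2 F.κ p).1 hp).len j hj hj
  -- guards
  have gr1 : ∀ x, RegO (F.P (Order.succ j)) (F.Le (Order.succ j))
      (F.P (Order.succ j) ∩ Gd j x) := fun x => (hGRD F j x hj).1 _ hsj hjs
  have gr2 : ∀ x, ∀ s ∈ F.P F.κ, ∀ t ∈ F.P F.κ, F.Le (Order.succ j) t s → s ∈ Gd j x →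
      t ∈ Gd j x := fun x => (hGRD F j x hj).2.1
  have gr3 : ∀ x, ∀ s ∈ F.P F.κ, (s ∈ Gd j x ↔ res s (Order.succ j) ∈ Gd j x) :=
    fun x s hs => (hGRD F j x hj).2.2.1 s hs _ hsj hjs
  have gr5 : SD F.γ F.M F.M (fun e _ => ∃ y, e.fst = .ord y ∧ e.snd ∈ F.P F.κ ∧
      e.snd ∈ Gd j y) := (hGRD F j 0 hj).2.2.2.2
  have hGx : ∀ t, t ∈ Gx G j ↔ ∃ x, t = .ord x ∧ ∃ p ∈ G, p ∈ Gd j x := fun t => Iff.rfl
  have hGP : ∀ p ∈ G, p ∈ F.P F.κ := fun p hp => hG.sub hp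
  refine ⟨?_, ?_, ?_, ?_⟩
  · -- the name
    let τ : Set T := {z | ∃ x, ∃ t ∈ F.P (Order.succ j), t ∈ Gd j x ∧ z = .pr (.ord x) t}
    have hsP : F.P (Order.succ j) ⊆ F.P F.κ := bmono _ _ hsj.le
    have hτM : τ ∈ F.M := by
      refine SOM.of_SD (S := F.M) hκγ ?_ ?_
      · rintro _ ⟨x, t, ht, htG, rfl⟩
        exact pr_mem.2 ⟨ord_mem.2 ((htG.1.trans (hln t (hsP ht))).trans hηκ), bdD _ ht⟩
      · have h1 : SD F.γ F.M F.M (fun e _ => e = .pr e.fst e.snd ∧ ((∃ y, e.fst = .ord y ∧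
            e.snd ∈ F.P F.κ ∧ e.snd ∈ Gd j y) ∧ e.snd ∈ F.P (Order.succ j))) := by
          refine SD.and (SD.eq ST.id (ST.pr (ST.fst ST.id) (ST.snd ST.id))) (SD.and gr5 ?_)
          exact SD.mem (ST.snd ST.id) (SV.par (pim3 _ hsj.le))
        refine h1.congr ?_
        intro e _ σ _
        constructor
        · rintro ⟨h2, ⟨y, h3, h4, h5⟩, h6⟩
          exact ⟨y, e.snd, h6, h5, by rw [← h3]; exact h2⟩
        · rintro ⟨y, t, h2, h3, rfl⟩
          exact ⟨rfl, ⟨y, rfl, hsP h2, h3⟩, h2⟩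
    have hev : evl G τ = Gx G j := by
      ext z
      constructor
      · rintro ⟨p, hp, x, t, ht, htG, hz⟩
        injection hz with h1 h2
        subst h1 h2
        exact ⟨x, rfl, p, hp, htG⟩
      · rintro ⟨x, rfl, p, hp, hpG⟩
        refine ⟨res p (Order.succ j), gn1 _ hsj p hp, x, _, (res1 p (hGP p hp) _ hsj.le).1, ?_, rfl⟩
        exact (gr3 x p (hGP p hp)).1 hpG
    rw [← hev]
    refine (hNMB F G hG).1 τ hτM ⟨Order.succ j, hsj, ?_⟩ ⟨F.η j, hηκ, ?_⟩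
    · rintro _ ⟨x, t, ht, htG, rfl⟩
      exact ⟨_, t, ht, rfl⟩
    · rintro _ ⟨x, t, ht, htG, rfl⟩
      exact ord_mem.2 (htG.1.trans (hln t (hsP ht)))
  · intro a ha
    let E : Set T := {q | ∃ x, a ≤ x ∧ q ∈ F.P F.κ ∧ q ∈ Gd j x}
    have hE : F.DO E := by
      refine ⟨?_, ?_, ?_, ?_⟩
      · refine SOM.of_SD (S := F.M) hκγ ?_ ?_
        · rintro q ⟨x, -, h1, -⟩
          exact bdD _ h1
        · have h1 : SD F.γ F.M F.M (fun e _ => ∃ x ∈ D (Iio F.γ), (¬ x.llt (.ord a) ∧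
              (∃ y, x = .ord y ∧ e ∈ F.P F.κ ∧ e ∈ Gd j y))) := by
            refine SD.exT (P := fun e x _ => (¬ x.llt (.ord a) ∧
              (∃ y, x = .ord y ∧ e ∈ F.P F.κ ∧ e ∈ Gd j y))) (SD.and (SD.not ?_) ?_)
            · exact SD.llt (ST.fst ST.id) (ST.ordc (ha.trans (hηκ.trans hκγ)))
            · exact SD.app2 (R := fun x q => ∃ y, x = .ord y ∧ q ∈ F.P F.κ ∧ q ∈ Gd j y)
                gr5 (ST.fst ST.id) (ST.snd ST.id)
          refine h1.congr ?_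
          intro e _ σ _
          constructor
          · rintro ⟨x, -, h2, y, rfl, h3, h4⟩
            exact ⟨y, not_lt.1 h2, h3, h4⟩
          · rintro ⟨y, h2, h3, h4⟩
            exact ⟨.ord y, ord_mem.2 ((h4.1.trans (hln e h3)).trans (hηκ.trans hκγ)),
              not_lt.2 h2, y, rfl, h3, h4⟩
      · rintro q ⟨x, -, h1, -⟩
        exact h1
      · intro p hp
        have h1 : max a (ln p j) < F.η j := max_lt ha (hln p hp)
        obtain ⟨q, hq, hqp, hq1, -, -, hq2, -⟩ := (hPAD F j hj p hp _ h1 (le_max_right _ _)).2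
        refine ⟨q, ⟨max a (ln p j), le_max_left _ _, hq, ?_, ?_⟩, hqp⟩
        · rw [hq1]; exact Order.lt_succ _
        · rw [hq2]; exact (res1 q hq j hj.le).1
      · rintro q ⟨x, h1, h2, h3⟩ r hr hrq
        exact ⟨x, h1, hr, gr2 x q h2 r hr (pdec _ _ _ _ hsj.le hrq) h3⟩
    obtain ⟨q, hqG, x, hx1, hx2, hx3⟩ := hG.gen E hE
    exact ⟨x, hx1, hx3.1.trans (hln q hx2), x, rfl, q, hqG, hx3⟩
  · rintro _ ⟨x, rfl, p, hp, hpG⟩
    exact ord_mem.2 (hpG.1.trans (hln p (hGP p hp)))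
  · rintro ⟨f, hf1, hf2, hf3⟩
    have hfM : gro F.w f ∈ F.M := ((hKSM F.w F.κ F.γ F.g).2.1 _).1 hf2 |>.1
    have hw0 : 0 < F.w := F.g.wlim.bot_lt
    have hwκ : F.w < F.κ := F.g.wk
    let E : Set T := {q | q ∈ F.P F.κ ∧ ∃ x < F.w, ∀ r ∈ F.P F.κ, F.Le F.κ r q → r ∉ Gd j (f x)}
    have hfκ : ∀ x < F.w, f x < F.κ := by
      intro x hx
      obtain ⟨y, hy, p, hp, hpG⟩ := hf3 x hx
      injection hy with hy
      rw [hy]
      exact (hpG.1.trans (hln p (hGP p hp))).trans hηκ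
    have hE : F.DO E := by
      refine ⟨?_, fun q hq => hq.1, ?_, ?_⟩
      · refine SOM.of_SD (S := F.M) hκγ (fun q hq => bdD _ hq.1) ?_
        let L : T → T → T → Prop := fun a q p => ∃ i ≤ F.κ, a = .ord i ∧ q ∈ D (Iio F.κ) ∧
          p ∈ D (Iio F.κ) ∧ F.Le i q p
        have hL : SD F.γ F.M F.M (fun e _ => L e.fst e.snd.fst e.snd.snd) := pim2
        have h1 : SD F.γ F.M F.M (fun e _ => e ∈ F.P F.κ ∧ ∃ z ∈ D (Iio F.γ),
            ((∃ x < F.w, (z.fst = .ord x ∧ z.snd = .ord (f x))) ∧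
            ∀ r ∈ D (Iio F.γ), (r ∈ F.P F.κ → (L (.ord F.κ) r e →
              ¬ (∃ y, z.snd = .ord y ∧ r ∈ F.P F.κ ∧ r ∈ Gd j y))))) := by
          refine SD.and (SD.mem ST.id (SV.par hPM)) ?_
          refine SD.exT (P := fun e z _ => ((∃ x < F.w, (z.fst = .ord x ∧ z.snd = .ord (f x))) ∧
            ∀ r ∈ D (Iio F.γ), (r ∈ F.P F.κ → (L (.ord F.κ) r e →
              ¬ (∃ y, z.snd = .ord y ∧ r ∈ F.P F.κ ∧ r ∈ Gd j y))))) (SD.and ?_ ?_)
          · exact SD.app2 (R := fun a b => ∃ x < F.w, (a = .ord x ∧ b = .ord (f x))) (sdG hfM)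
              (ST.fst (ST.fst ST.id)) (ST.snd (ST.fst ST.id))
          · refine SD.allT (P := fun e r _ => (r ∈ F.P F.κ → (L (.ord F.κ) r e.snd →
              ¬ (∃ y, e.fst.snd = .ord y ∧ r ∈ F.P F.κ ∧ r ∈ Gd j y)))) ?_
            refine SD.imp (SD.mem (ST.fst ST.id) (SV.par hPM)) (SD.imp ?_ (SD.not ?_))
            · exact SD.app3 (R := L) hL (ST.ordc hκγ) (ST.fst ST.id) (ST.snd (ST.snd ST.id))
            · exact SD.app2 (R := fun x q => ∃ y, x = .ord y ∧ q ∈ F.P F.κ ∧ q ∈ Gd j y)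
                gr5 (ST.snd (ST.fst (ST.snd ST.id))) (ST.fst ST.id)
        refine h1.congr ?_
        intro e _ σ _
        constructor
        · rintro ⟨h2, z, -, ⟨x, hx, h3, h4⟩, h5⟩
          refine ⟨h2, x, hx, fun r hr hre hrG => ?_⟩
          exact h5 r (hDκγ (bdD _ hr)) hr ⟨F.κ, le_rfl, rfl, bdD _ hr, bdD _ h2, hre⟩
            ⟨f x, h4, hr, hrG⟩
        · rintro ⟨h2, x, hx, h3⟩
          refine ⟨h2, .pr (.ord x) (.ord (f x)), ?_, ⟨x, hx, rfl, rfl⟩, ?_⟩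
          · exact hDκγ (pr_mem.2 ⟨ord_mem.2 (hx.trans hwκ), ord_mem.2 (hfκ x hx)⟩)
          · rintro r - hr ⟨i, -, h4, -, -, h5⟩ ⟨y, h6, -, h7⟩
            injection h4 with h4
            subst h4
            have h8 : f x = y := by injection h6
            rw [← h8] at h7
            exact h3 r hr h5 h7
      · intro p hp
        by_contra hc
        push Not at hc
        -- the guards are dense below p
        have hd : ∀ q ∈ F.P F.κ, F.Le F.κ q p → ∀ x < F.w, ∃ r ∈ F.P F.κ, F.Le F.κ r q ∧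
            r ∈ Gd j (f x) := by
          intro q hq hqp x hx
          by_contra h1
          push Not at h1
          exact hc q ⟨hq, x, hx, h1⟩ hqp
        have hmem : ∀ x < F.w, p ∈ Gd j (f x) := by
          intro x hx
          rw [gr3 (f x) p hp]
          obtain ⟨rp1, rp2, -, -, -, rp3, rp4, -⟩ := res1 p hp _ hsj.le
          refine ((gr1 (f x)).2.2 _ rp1 ?_).2
          intro s hs hsp
          have hsp' : F.Le (Order.succ j) s p := ptrans _ _ _ _ hsp rp3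
          obtain ⟨a1, a2, a3, a4, -⟩ := amg1 _ hsj s hs p hp hsp'
          obtain ⟨r, hr, hra, hrG⟩ := hd _ a1 a4 x hx
          obtain ⟨q1, q2, -, -, -, q3, q4, -⟩ := res1 r hr _ hsj.le
          refine ⟨res r (Order.succ j), q1, ?_, q1, (gr3 (f x) r hr).1 hrG⟩
          have h5 : F.Le (Order.succ j) (am s p (Order.succ j)) s := (eqv1 _ _ s s a2).2.2
          exact ptrans _ _ _ _ (ptrans _ _ _ _ q3 (pdec _ _ _ _ hsj.le hra)) h5
        refine ((pun2 F.κ p).1 hp).thin j hj hj ⟨f, res p j, hf1, hfM, (res1 p hp j hj.le).1, ?_⟩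
        intro x hx
        exact hmem x hx
      · rintro q ⟨hq, x, hx, h1⟩ r hr hrq
        exact ⟨hr, x, hx, fun r' hr' hrr => h1 r' hr' (ptrans _ _ _ _ hrr hrq)⟩
    obtain ⟨q, hqG, hq, x, hx, hqx⟩ := hG.gen E hE
    obtain ⟨y, hy, p, hp, hpG⟩ := hf3 x hx
    injection hy with hy
    rw [← hy] at hpG
    obtain ⟨r, hr, hrq, hrp⟩ := hG.dir q hqG p hp
    exact hqx r (hGP r hr) hrq (gr2 (f x) p (hGP p hp) r (hGP r hr) (pdec _ _ _ _ hsj.le hrp) hpG)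

end Pool.Agent.Helper17.OD.PkGX1
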