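import Pool.Agent.Helper17.OD.GoalsGE
import Pool.Agent.Helper52.OD.Base

/-! KSM: the second order structure `Con κ` (packet of project OD). -/

namespace Pool.Agent.Helper17.OD.PkKSM

open Set Pk52

theorem D_countable {A : Set O} (hA : A.Countable) : (D A : Set T).Countable := by
  have h : ∀ n : ℕ, {t : T | t ∈ D A ∧ t.height ≤ n}.Countable := by
    intro n
    induction n with
    | zero =>
      refine ((countable_range (fun n : ℕ => (Tr.nat n : T))).union (hA.image Tr.ord)).mono ?_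
      rintro t ⟨ht, hh⟩
      cases t with
      | nat n => exact Or.inl ⟨n, rfl⟩
      | ord a => exact Or.inr ⟨a, ord_mem.1 ht, rfl⟩
      | pr s t => simp [Tr.height] at hh
    | succ n ih =>
      refine (((countable_range (fun n : ℕ => (Tr.nat n : T))).union (hA.image Tr.ord)).union
        (ih.image2 ih Tr.pr)).mono ?_
      rintro t ⟨ht, hh⟩
      cases t with
      | nat n => exact Or.inl (Or.inl ⟨n, rfl⟩)
      | ord a => exact Or.inl (Or.inr ⟨a, ord_mem.1 ht, rfl⟩)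
      | pr s t =>
        obtain ⟨h1, h2⟩ := pr_mem.1 ht
        have h3 : max s.height t.height + 1 ≤ n + 1 := hh
        have h4 : max s.height t.height ≤ n := by omega
        exact Or.inr ⟨s, ⟨h1, (le_max_left _ _).trans h4⟩, t, ⟨h2, (le_max_right _ _).trans h4⟩, rfl⟩
  have h2 : (D A : Set T) ⊆ ⋃ n : ℕ, {t : T | t ∈ D A ∧ t.height ≤ n} := fun t ht =>
    mem_iUnion.2 ⟨t.height, ht, le_rfl⟩
  exact (countable_iUnion h).mono h2

theorem exists_lt {μ : O} (hμ : Order.IsSuccLimit μ) (t : T) (ht : t ∈ D (Iio μ)) :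
    ∃ b < μ, t ∈ D (Iio b) := by
  induction t with
  | nat n => exact ⟨0, hμ.bot_lt, nat_mem _ _⟩
  | ord a => exact ⟨Order.succ a, hμ.succ_lt (ord_mem.1 ht), ord_mem.2 (Order.lt_succ a)⟩
  | pr s t ih1 ih2 =>
    obtain ⟨h1, h2⟩ := pr_mem.1 ht
    obtain ⟨b, hb, hb'⟩ := ih1 h1
    obtain ⟨c, hc, hc'⟩ := ih2 h2
    exact ⟨max b c, max_lt hb hc, pr_mem.2 ⟨D_mono (Iio_subset_Iio (le_max_left _ _)) hb',
      D_mono (Iio_subset_Iio (le_max_right _ _)) hc'⟩⟩

/-- Regularity for relations. -/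
theorem reg_bound {k : O} {S : Set (Set T)} [h : SOM k S S] {μ d : O} (hμ : MReg S μ)
    (hμk : μ < k) (hd : d < μ) (W : T → T → Prop)
    (hW : SD k S S (fun e _ => W e.fst e.snd)) (hx : ∀ x ∈ D (Iio d), ∃ b < μ, W x (.ord b)) :
    ∃ b < μ, ∀ x ∈ D (Iio d), ∃ b' < b, W x (.ord b') := by
  classical
  let f : T → T := fun x => .ord (sInf {b | W x (.ord b)})
  have hf1 : ∀ x ∈ D (Iio d), (f x).IsOrd ∧ f x ∈ D (Iio μ) := by
    intro x hx'
    obtain ⟨b, hb, hb'⟩ := hx x hx'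
    exact ⟨trivial, ord_mem.2 ((csInf_le' (s := {b | W x (.ord b)}) hb').trans_lt hb)⟩
  have hf3 : ∀ x ∈ D (Iio d), W x (f x) := by
    intro x hx'
    obtain ⟨b, hb, hb'⟩ := hx x hx'
    exact csInf_mem (s := {b | W x (.ord b)}) ⟨b, hb'⟩
  have hf2 : gr (D (Iio d)) f ∈ S := by
    refine SOM.of_SD (S := S) hμk ?_ ?_
    · rintro _ ⟨x, hx', rfl⟩
      exact pr_mem.2 ⟨D_mono (Iio_subset_Iio hd.le) hx', (hf1 x hx').2⟩
    · have h1 : SD k S S (fun e _ => e = .pr e.fst e.snd ∧ (e.fst ∈ D (Iio d) ∧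
          (e.snd.IsOrd ∧ (W e.fst e.snd ∧ ∀ z ∈ D (Iio k), (z.IsOrd → (z.llt e.snd →
            ¬ W e.fst z)))))) := by
        refine SD.and (SD.eq ST.id (ST.pr (ST.fst ST.id) (ST.snd ST.id))) (SD.and ?_
          (SD.and (SD.isOrd (ST.snd ST.id)) (SD.and hW ?_)))
        · exact SD.mem (ST.fst ST.id) (SV.par (D_mem (hd.trans hμk)))
        · refine SD.allT (P := fun e z _ => (z.IsOrd → (z.llt e.snd → ¬ W e.fst z))) ?_
          refine SD.imp (SD.isOrd (ST.fst ST.id)) (SD.imp (SD.llt (ST.fst ST.id)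
            (ST.snd (ST.snd ST.id))) (SD.not ?_))
          exact SD.app2 (R := W) hW (ST.fst (ST.snd ST.id)) (ST.fst ST.id)
      refine h1.congr ?_
      intro e he σ _
      constructor
      · rintro ⟨h2, h3, h4, h5, h6⟩
        refine ⟨e.fst, h3, ?_⟩
        conv_lhs => rw [h2]
        congr 1
        cases h7 : e.snd with
        | nat n => rw [h7] at h4; exact h4.elim
        | pr a b => rw [h7] at h4; exact h4.elim
        | ord y =>
          rw [h7] at h5 h6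
          have h8 : sInf {b | W e.fst (.ord b)} ≤ y := csInf_le' (s := {b | W e.fst (.ord b)}) h5
          change Tr.ord y = .ord (sInf {b | W e.fst (.ord b)})
          rcases h8.lt_or_eq with h9 | h9
          · have hy : y < k := by
              have h7' := snd_mem he
              rw [h7, ord_mem] at h7'
              exact h7'
            exact absurd (hf3 e.fst h3) (h6 _ (ord_mem.2 (h9.trans hy)) trivial h9)
          · rw [h9]
      · rintro ⟨x, hx', rfl⟩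
        refine ⟨rfl, hx', trivial, hf3 x hx', ?_⟩
        intro z _ hz hz' hW'
        cases z with
        | nat n => exact hz.elim
        | pr a b => exact hz.elim
        | ord z =>
          have h8 : sInf {b | W x (.ord b)} ≤ z := csInf_le' (s := {b | W x (.ord b)}) hW'
          exact absurd h8 (not_le.2 hz')
  obtain ⟨b, hb, hb'⟩ := hμ d hd f hf1 hf2
  refine ⟨b, hb, fun x hx' => ⟨_, ord_mem.1 (hb' x hx'), hf3 x hx'⟩⟩

theorem thm (hTRS : G_TRS) (hTRD : G_TRD) (hTRE : G_TRE) (hOFC : G_OFC.{2}) : G_KSM := by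
  intro w κ γ g
  have hM : SOM γ (Con γ) (Con γ) := g.m1
  have hDκγ : D (Iio κ) ⊆ D (Iio γ) := D_mono (Iio_subset_Iio g.kg.le)
  have hcon : ∀ X : Set T, X ∈ Con κ ↔ X ∈ Con γ ∧ ∃ d < κ, X ⊆ D (Iio d) := by
    intro X
    constructor
    · rintro ⟨c, hc, rfl⟩
      refine ⟨⟨c, hDκγ hc, rfl⟩, ?_⟩
      by_cases hne : (dec c).Nonempty
      · obtain ⟨x, b, φ, v, h1, h2, h3, h4⟩ := hne
        rw [h1] at hc
        refine ⟨b, ord_mem.1 (pr_mem.1 hc).1, ?_⟩
        rintro y ⟨b', φ', v', h1', h2', h3', h4'⟩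
        rw [h1] at h1'
        injection h1' with h5 h6
        injection h5 with h5
        rw [h5]
        exact h3'
      · rw [not_nonempty_iff_eq_empty] at hne
        exact ⟨0, g.klim.bot_lt, by rw [hne]; exact empty_subset _⟩
    · rintro ⟨h1, d, hd, h2⟩
      obtain ⟨c, hc, hc'⟩ := g.m2 X h1 d hd h2
      exact ⟨c, hc, hc'⟩
  have hInD : SD γ (Con γ) (Con γ) (fun e _ => InD e.fst e.snd) :=
    (hTRE γ _ _ hM).2.2.2.2.2.1
  have hInD' : ∀ (b : O) (t : T), InD (.ord b) t ↔ t ∈ D (Iio b) := by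
    intro b t
    constructor
    · rintro ⟨b', h1, h2⟩
      injection h1 with h1
      rw [h1]; exact h2
    · intro h
      exact ⟨b, rfl, h⟩
  have hTru : SD γ (Con γ) (Con γ) (fun e _ => TruT e.fst e.snd.fst e.snd.snd) :=
    (hTRD γ _ _ hM).1
  have hcodeI : ∀ c d : Code, (Tr.ofCode c : T) = Tr.ofCode d → c = d := (hOFC O).1
  have hcodeD : ∀ (c : Code) (A : Set O), (Tr.ofCode c : T) ∈ D A := by
    intro c A
    have h1 : (Tr.ofCode c : T).leaves = ∅ := (hOFC O).2.2.1 c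
    change (Tr.ofCode c : T).leaves ⊆ A
    rw [h1]
    exact empty_subset _
  have hTru' : ∀ (b : O) (c : Code) (v : T), TruT (.ord b) (Tr.ofCode c) v ↔
      v ∈ D (Iio b) ∧ Tru b c v := by
    intro b c v
    constructor
    · rintro ⟨b', c', h1, h2, h3, h4⟩
      injection h1 with h1
      have h5 := hcodeI _ _ h2
      rw [h1, h5]
      exact ⟨h3, h4⟩
    · rintro ⟨h1, h2⟩
      exact ⟨b, c, rfl, rfl, h1, h2⟩
  have hbot : (0 : O) < κ := g.klim.bot_lt
  -- translation of formulas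
  have htr : ∀ (φ : SF) (σ : ℕ → Set T), (∀ i, σ i ∈ Con κ) → ∃ (c : Code) (K : T),
      K ∈ D (Iio κ) ∧ ∀ e ∈ D (Iio κ), (Tru κ c (.pr e K) ↔ Sat κ (Con κ) φ e σ) := by
    intro φ σ hσ
    obtain ⟨c, hc⟩ := hTRS.1 φ
    obtain ⟨n, hn⟩ := hTRS.2.1 φ
    obtain ⟨K, hK, hK'⟩ := hTRS.2.2 κ σ n hσ
    refine ⟨c, K, hK, fun e he => ?_⟩
    rw [hc κ g.klim e he K hK]
    exact hn κ (Con κ) e _ _ hK'
  have hcomp : ∀ (φ : SF), ∀ e ∈ D (Iio κ), ∀ σ : ℕ → Set T, (∀ i, σ i ∈ Con κ) → ∀ d < κ,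
      {x | x ∈ D (Iio d) ∧ Sat κ (Con κ) φ (.pr x e) σ} ∈ Con κ := by
    intro φ e he σ hσ d hd
    rw [hcon]
    refine ⟨?_, d, hd, fun x hx => hx.1⟩
    obtain ⟨c, K, hK, hc⟩ := htr φ σ hσ
    have h1 : SD γ (Con γ) (Con γ) (fun x _ =>
        TruT (.ord κ) (Tr.ofCode c) (.pr (.pr x e) K)) := by
      refine SD.app3 (R := TruT) hTru (ST.ordc g.kg) (ST.const (hcodeD c _))
        (ST.pr (ST.pr ST.id (ST.const (hDκγ he))) (ST.const (hDκγ hK)))
    have h2 := SOM.sep h1 (hd.trans g.kg)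
    convert h2 using 1
    ext x
    constructor
    · rintro ⟨h3, h4⟩
      have hx : x ∈ D (Iio κ) := D_mono (Iio_subset_Iio hd.le) h3
      refine ⟨h3, ?_⟩
      rw [hTru']
      exact ⟨pr_mem.2 ⟨pr_mem.2 ⟨hx, he⟩, hK⟩, (hc _ (pr_mem.2 ⟨hx, he⟩)).2 h4⟩
    · rintro ⟨h3, h4⟩
      have hx : x ∈ D (Iio κ) := D_mono (Iio_subset_Iio hd.le) h3
      rw [hTru'] at h4
      exact ⟨h3, (hc _ (pr_mem.2 ⟨hx, he⟩)).1 h4.2⟩
  refine ⟨⟨g.klim, g.omw.trans g.wk, subset_rfl, ?_, ?_, hcomp, hcomp, ?_⟩, hcon, ?_, ?_⟩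
  · refine ⟨.nat 0, nat_mem _ _, ?_⟩
    ext x
    constructor
    · intro h; exact h.elim
    · rintro ⟨b, φ, v, h1, -⟩
      exact absurd h1 (by simp)
  · intro X hX
    exact ((hcon X).1 hX).2
  · intro φ e he σ hσ d hd hx
    obtain ⟨c, K, hK, hc⟩ := htr φ σ hσ
    let R : T → T → Prop := fun x y => TruT (.ord κ) (Tr.ofCode c) (.pr (.pr y (.pr x e)) K)
    have hR : SD γ (Con γ) (Con γ) (fun e _ => R e.fst e.snd) := by
      refine SD.app3 (R := TruT) hTru (ST.ordc g.kg) (ST.const (hcodeD c _))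
        (ST.pr (ST.pr (ST.snd ST.id) (ST.pr (ST.fst ST.id) (ST.const (hDκγ he))))
          (ST.const (hDκγ hK)))
    have hR' : ∀ x ∈ D (Iio κ), ∀ y ∈ D (Iio κ), R x y ↔ Sat κ (Con κ) φ (.pr y (.pr x e)) σ := by
      intro x hx y hy
      have h1 : Tr.pr y (.pr x e) ∈ D (Iio κ) := pr_mem.2 ⟨hy, pr_mem.2 ⟨hx, he⟩⟩
      rw [← hc _ h1]
      change TruT _ _ _ ↔ _
      rw [hTru']
      exact ⟨fun h => h.2, fun h => ⟨pr_mem.2 ⟨h1, hK⟩, h⟩⟩
    let W : T → T → Prop := fun x z => ∃ y ∈ D (Iio γ), (InD z y ∧ R x y)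
    have hW : SD γ (Con γ) (Con γ) (fun e _ => W e.fst e.snd) := by
      refine SD.exT (P := fun e y _ => (InD e.snd y ∧ R e.fst y)) (SD.and ?_ ?_)
      · exact SD.app2 (R := InD) hInD (ST.snd (ST.snd ST.id)) (ST.fst ST.id)
      · exact SD.app2 (R := R) hR (ST.fst (ST.snd ST.id)) (ST.fst ST.id)
    have hDd : D (Iio d) ⊆ D (Iio κ) := D_mono (Iio_subset_Iio hd.le)
    obtain ⟨b, hb, hb'⟩ := reg_bound (S := Con γ) g.m4k g.kg hd W hW (by
      intro x hx'
      obtain ⟨y, hy, hy'⟩ := hx x hx'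
      obtain ⟨b, hb, hb'⟩ := exists_lt g.klim y hy
      exact ⟨b, hb, y, hDκγ hy, (hInD' b y).2 hb', (hR' x (hDd hx') y hy).2 hy'⟩)
    refine ⟨b, hb, fun x hx' => ?_⟩
    obtain ⟨b', hbb, y, -, hy1, hy2⟩ := hb' x hx'
    rw [hInD'] at hy1
    have hyb : y ∈ D (Iio b) := D_mono (Iio_subset_Iio hbb.le) hy1
    exact ⟨y, hyb, (hR' x (hDd hx') y (D_mono (Iio_subset_Iio hb.le) hyb)).1 hy2⟩
  · intro a ha hsa
    have hsγ : sq a ∈ Con γ := ((hcon _).1 hsa).1
    have hwγ : w < γ := g.wk.trans g.kg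
    have hDwγ : D (Iio w) ⊆ D (Iio γ) := D_mono (Iio_subset_Iio hwγ.le)
    let W : T → T → Prop := fun x z => ∀ t ∈ D (Iio γ), (Tr.pr x t ∈ sq a → InD z t)
    have hW : SD γ (Con γ) (Con γ) (fun e _ => W e.fst e.snd) := by
      refine SD.allT (P := fun e t _ => (Tr.pr e.fst t ∈ sq a → InD e.snd t)) (SD.imp ?_ ?_)
      · exact SD.mem (ST.pr (ST.fst (ST.snd ST.id)) (ST.fst ST.id)) (SV.par hsγ)
      · exact SD.app2 (R := InD) hInD (ST.snd (ST.snd ST.id)) (ST.fst ST.id)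
    obtain ⟨b, hb, hb'⟩ := reg_bound (S := Con γ) g.m4w hwγ g.wlim.bot_lt W hW (by
      intro x _
      by_cases hx : ∃ n : ℕ, x = .nat n
      · obtain ⟨n, rfl⟩ := hx
        obtain ⟨b, hb, hb'⟩ := exists_lt g.wlim (a n) (ha n)
        refine ⟨b, hb, ?_⟩
        rintro t - ⟨m, hm⟩
        injection hm with h1 h2
        injection h1 with h1
        rw [hInD', h2, ← h1]
        exact hb'
      · refine ⟨0, g.wlim.bot_lt, ?_⟩
        rintro t - ⟨m, hm⟩
        injection hm with h1 h2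
        exact absurd ⟨m, h1⟩ hx)
    have hall : ∀ n, a n ∈ D (Iio b) := by
      intro n
      obtain ⟨b', hbb, h1⟩ := hb' (.nat n) (nat_mem _ _)
      have h2 := h1 (a n) (hDwγ (ha n)) ⟨n, rfl⟩
      rw [hInD'] at h2
      exact D_mono (Iio_subset_Iio hbb.le) h2
    refine ⟨g.m3 _ hsγ b hb ?_, b, hb, hall⟩
    rintro _ ⟨n, rfl⟩
    exact pr_mem.2 ⟨nat_mem _ _, hall n⟩
  · have h1 : Con γ ⊆ dec '' D (Iio γ) := by
      rintro X ⟨c, hc, rfl⟩
      exact ⟨c, hc, rfl⟩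
    exact ((D_countable g.cnt).image dec).mono h1

end Pool.Agent.Helper17.OD.PkKSM
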