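import Pool.Agent.Helper52.OD.Base

/-! GLM: guarded limits (packet of project OD). -/

namespace Pool.Agent.Helper17.OD.PkGLM

open Set Pk52

theorem thm (hLMT : G_LMT) (hSPL : G_SPL) (hPBD : G_PBD) (hPUN : G_PUN)
    (hLNS : G_LNS) : G_GLM := by
  intro F j l q hj hl hlη hqM hqP hdec hEq hgd hcont
  haveI hM : SOM F.γ F.M F.M := F.g.m1
  obtain ⟨pun1, pun2⟩ := hPUN F
  obtain ⟨-, bdD, bmono, bsup, bln0, -, blow, -⟩ := hPBD F
  have hκγ : F.κ < F.γ := F.g.kg
  have hlκ : l < F.κ := hlη.trans_lt (F.e.lt j hj)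
  have hl0 : 0 < l := hl.bot_lt
  have hqD : ∀ x < l, q x ∈ D (Iio F.γ) := fun x hx =>
    D_mono (Iio_subset_Iio hκγ.le) (bdD F.κ (hqP x hx))
  have hlen : ∀ x < l, ∀ i < F.κ, ln (q x) i < F.η i := fun x hx i hi =>
    ((pun2 F.κ (q x)).1 (hqP x hx)).len i hi hi
  have hmon : ∀ x y, x ≤ y → y < l → ∀ i < F.κ, ln (q x) i ≤ ln (q y) i := by
    intro x y hxy hy i hi
    rcases hxy.lt_or_eq with h | h
    · exact ((pun1 _ _ _).1 (hdec x y h hy) i hi).1
    · rw [h]
  -- lengths are bounded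
  have hLn : ∀ i < F.κ, SD F.γ F.M F.M (fun e _ => ∃ x < l, e.fst = .ord x ∧
      e.snd = .ord (ln (q x) i)) := by
    intro i hi
    have h1 : SD F.γ F.M F.M (fun e _ => ∃ p ∈ D (Iio F.γ), ((∃ x < l, e.fst = .ord x ∧ p = q x) ∧
        (∃ i' y : O, (.ord i : T) = .ord i' ∧ e.snd = .ord y ∧ ln p i' = y))) := by
      refine SD.exT (P := fun e p _ => ((∃ x < l, e.fst = .ord x ∧ p = q x) ∧
        (∃ i' y : O, (.ord i : T) = .ord i' ∧ e.snd = .ord y ∧ ln p i' = y))) (SD.and ?_ ?_)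
      · exact SD.app2 (R := fun a p => ∃ x < l, a = .ord x ∧ p = q x) (sdQ hqM)
          (ST.fst (ST.snd ST.id)) (ST.fst ST.id)
      · exact SD.app3 (R := fun p a b => ∃ i' y : O, a = .ord i' ∧ b = .ord y ∧ ln p i' = y)
          (sdLnE hLNS) (ST.fst ST.id) (ST.ordc (hi.trans hκγ)) (ST.snd (ST.snd ST.id))
    refine h1.congr ?_
    intro e he σ _
    constructor
    · rintro ⟨p, -, ⟨x, hx, h2, rfl⟩, i', y, h3, h4, h5⟩
      injection h3 with h3
      subst h3
      exact ⟨x, hx, h2, by rw [h4, h5]⟩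
    · rintro ⟨x, hx, h2, h3⟩
      exact ⟨q x, hqD x hx, ⟨x, hx, h2, rfl⟩, i, _, rfl, h3, rfl⟩
  have hbd : ∀ i < F.κ, ∃ a < F.η i, ∀ x < l, ln (q x) i ≤ a := by
    intro i hi
    by_cases hij : i ≤ j
    · refine ⟨ln (q 0) i, hlen 0 hl0 i hi, fun x hx => ?_⟩
      exact (hEq x hx i (Order.lt_succ_iff.2 hij)).1.le
    · rw [not_le] at hij
      have hli : l < F.η i := hlη.trans_lt (F.e.inc i hi j hij)
      obtain ⟨b, hb, hb'⟩ := bound (S := F.M) (F.e.reg i hi) ((hl0.trans hli)) ((F.e.lt i hi).trans hκγ) hli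
        (fun x => ln (q x) i) (fun x hx => hlen x hx i hi) (hLn i hi)
      exact ⟨b, hb, fun x hx => (hb' x hx).le⟩
  have hne : ∀ i < F.κ, ∃ a, ∀ x < l, ln (q x) i ≤ a := fun i hi => by
    obtain ⟨a, -, ha⟩ := hbd i hi
    exact ⟨a, ha⟩
  -- supports are bounded
  have hsupp : ∃ d < F.κ, ∀ x < l, ∀ i, d ≤ i → ln (q x) i = 0 := by
    classical
    have hex : ∀ x < l, ∃ d, d < F.κ ∧ ∀ i, d ≤ i → ln (q x) i = 0 := by
      intro x hx
      obtain ⟨-, d, hd, hd'⟩ := bsup F.κ (q x) (hqP x hx)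
      exact ⟨d, hd, fun i hi => (hd' i hi).1⟩
    let v : O → O := fun x => sInf {d | ∀ i, d ≤ i → ln (q x) i = 0}
    have hv1 : ∀ x < l, ∀ i, v x ≤ i → ln (q x) i = 0 := by
      intro x hx
      obtain ⟨d, -, hd'⟩ := hex x hx
      exact csInf_mem (s := {d | ∀ i, d ≤ i → ln (q x) i = 0}) ⟨d, hd'⟩
    have hv2 : ∀ x < l, v x < F.κ := by
      intro x hx
      obtain ⟨d, hd, hd'⟩ := hex x hx
      exact (csInf_le' (s := {d | ∀ i, d ≤ i → ln (q x) i = 0}) hd').trans_lt hd
    have hv3 : ∀ x < l, ∀ d, (∀ i, d ≤ i → ln (q x) i = 0) → v x ≤ d := by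
      intro x hx d hd
      exact csInf_le' (s := {d | ∀ i, d ≤ i → ln (q x) i = 0}) hd
    have hL := hLNS F.γ F.M F.M hM
    -- b bounds the support of p
    let B : T → T → Prop := fun p b => ∀ i ∈ D (Iio F.γ), (i.IsOrd → (¬ i.llt b → ¬ LnT p i (.ord 0)))
    have hB : SD F.γ F.M F.M (fun e _ => B e.fst e.snd) := by
      refine SD.allT (P := fun e i _ => (i.IsOrd → (¬ i.llt e.snd → ¬ LnT e.fst i (.ord 0)))) ?_
      refine SD.imp (SD.isOrd (ST.fst ST.id)) (SD.imp (SD.not (SD.llt (ST.fst ST.id)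
        (ST.snd (ST.snd ST.id)))) (SD.not ?_))
      exact SD.app3 (R := LnT) hL (ST.fst (ST.snd ST.id)) (ST.fst ST.id)
        (ST.ordc ((hl0.trans hlκ).trans hκγ))
    have hB' : ∀ x < l, ∀ b < F.γ, B (q x) (.ord b) ↔ v x ≤ b := by
      intro x hx b hb
      constructor
      · intro h
        refine hv3 x hx b (fun i hi => ?_)
        by_cases hiγ : i < F.γ
        · have h2 := h (.ord i) (ord_mem.2 hiγ) trivial (not_lt.2 hi)
          by_contra h3
          exact h2 ⟨i, 0, rfl, rfl, pos_iff_ne_zero.2 h3⟩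
        · exact bln0 F.κ (q x) (hqP x hx) i (hκγ.le.trans (not_lt.1 hiγ))
      · intro h i hi1 hi2 hi3
        cases i with
        | nat n => exact hi2.elim
        | pr a b => exact hi2.elim
        | ord i =>
          rintro ⟨i', z, h4, h5, h6⟩
          injection h4 with h4
          injection h5 with h5
          subst h4 h5
          rw [hv1 x hx i (h.trans (not_lt.1 hi3))] at h6
          exact lt_irrefl _ h6
    have hV : SD F.γ F.M F.M (fun e _ => ∃ x < l, e.fst = .ord x ∧ e.snd = .ord (v x)) := by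
      have h1 : SD F.γ F.M F.M (fun e _ => ∃ p ∈ D (Iio F.γ), ((∃ x < l, e.fst = .ord x ∧ p = q x) ∧
          (e.snd.IsOrd ∧ (B p e.snd ∧ ∀ z ∈ D (Iio F.γ), (z.IsOrd → (z.llt e.snd → ¬ B p z)))))) := by
        refine SD.exT (P := fun e p _ => ((∃ x < l, e.fst = .ord x ∧ p = q x) ∧
          (e.snd.IsOrd ∧ (B p e.snd ∧ ∀ z ∈ D (Iio F.γ), (z.IsOrd → (z.llt e.snd → ¬ B p z)))))) ?_
        refine SD.and ?_ (SD.and ?_ (SD.and ?_ ?_))
        · exact SD.app2 (R := fun a p => ∃ x < l, a = .ord x ∧ p = q x) (sdQ hqM)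
            (ST.fst (ST.snd ST.id)) (ST.fst ST.id)
        · exact SD.isOrd (ST.snd (ST.snd ST.id))
        · exact SD.app2 (R := B) hB (ST.fst ST.id) (ST.snd (ST.snd ST.id))
        · refine SD.allT (P := fun e z _ => (z.IsOrd → (z.llt e.snd.snd → ¬ B e.fst z))) ?_
          refine SD.imp (SD.isOrd (ST.fst ST.id)) (SD.imp (SD.llt (ST.fst ST.id)
            (ST.snd (ST.snd (ST.snd ST.id)))) (SD.not ?_))
          exact SD.app2 (R := B) hB (ST.fst (ST.snd ST.id)) (ST.fst ST.id)
      refine h1.congr ?_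
      intro e he σ _
      constructor
      · rintro ⟨p, -, ⟨x, hx, h2, rfl⟩, h3, h4, h5⟩
        refine ⟨x, hx, h2, ?_⟩
        cases h6 : e.snd with
        | nat n => rw [h6] at h3; exact h3.elim
        | pr a b => rw [h6] at h3; exact h3.elim
        | ord y =>
          rw [h6] at h4 h5
          have hy : y < F.γ := by
            have h7 := snd_mem he
            rw [h6, ord_mem] at h7
            exact h7
          have h7 := (hB' x hx y hy).1 h4
          rcases h7.lt_or_eq with h8 | h8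
          · exact (h5 (.ord (v x)) (ord_mem.2 (h8.trans hy)) trivial h8
              ((hB' x hx _ (h8.trans hy)).2 le_rfl)).elim
          · rw [h8]
      · rintro ⟨x, hx, h2, h3⟩
        refine ⟨q x, hqD x hx, ⟨x, hx, h2, rfl⟩, ?_, ?_, ?_⟩
        · rw [h3]; trivial
        · rw [h3]; exact (hB' x hx _ ((hv2 x hx).trans hκγ)).2 le_rfl
        · intro z hz1 hz2 hz3 hz4
          rw [h3] at hz3
          cases z with
          | nat n => exact hz2.elim
          | pr a b => exact hz2.elim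
          | ord z => exact absurd ((hB' x hx z (ord_mem.1 hz1)).1 hz4) (not_le.2 hz3)
    obtain ⟨b, hb, hb'⟩ := bound (S := F.M) F.g.m4k (hl0.trans hlκ) hκγ hlκ v hv2 hV
    exact ⟨b, hb, fun x hx i hi => hv1 x hx i ((hb' x hx).le.trans hi)⟩
  -- coordinates up to j
  have hlow : ∀ i ≤ j, limL q l i = ln (q 0) i := by
    intro i hij
    have hi : i < F.κ := hij.trans_lt hj
    refine le_antisymm ?_ ?_
    · refine csInf_le' (s := {a | ∀ x < l, ln (q x) i ≤ a}) (fun x hx => ?_)
      exact (hEq x hx i (Order.lt_succ_iff.2 hij)).1.le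
    · exact (csInf_mem (s := {a | ∀ x < l, ln (q x) i ≤ a}) (hne i hi)) 0 hl0
  have hlowN : ∀ i ≤ j, ∀ z < ln (q 0) i, limN q l i z = nm (q 0) i z := by
    intro i hij z hz
    ext s
    constructor
    · rintro ⟨x, hx, h1, h2, h3⟩
      have hx0 : x = 0 := by
        by_contra hx0
        exact h2 0 (pos_iff_ne_zero.2 hx0) hz
      rw [hx0] at h3
      exact h3
    · intro hs
      exact ⟨0, hl0, hz, fun y hy => absurd hy (not_lt.2 (zero_le)), hs⟩
  have hw0 : 0 < F.w := F.g.wlim.bot_lt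
  have hwκ : F.w < F.κ := F.g.wk
  -- thinness
  have hthin : ∀ i < F.κ, Thin F.M F.w (F.P i) (limN q l i) (limL q l i) := by
    intro i hi
    rintro ⟨f, r, hf1, hf2, hr, hf3⟩
    by_cases hij : i ≤ j
    · refine ((pun2 F.κ (q 0)).1 (hqP 0 hl0)).thin i hi hi ⟨f, r, hf1, hf2, hr, fun x hx => ?_⟩
      obtain ⟨h1, h2⟩ := hf3 x hx
      rw [hlow i hij] at h1
      rw [hlowN i hij _ h1] at h2
      exact ⟨h1, h2⟩
    · rw [not_le] at hij
      have hch : ∀ x, ∃ y, x < F.w → y < l ∧ f x < ln (q y) i ∧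
          (∀ y' < y, ¬ f x < ln (q y') i) ∧ r ∈ nm (q y) i (f x) := by
        intro x
        by_cases hx : x < F.w
        · obtain ⟨y, h1, h2, h3, h4⟩ := (hf3 x hx).2
          exact ⟨y, fun _ => ⟨h1, h2, h3, h4⟩⟩
        · exact ⟨0, fun h => absurd h hx⟩
      choose h hh using hch
      have hfη : ∀ x < F.w, f x < F.κ := fun x hx =>
        ((hh x hx).2.1.trans (hlen _ (hh x hx).1 i hi)).trans (F.e.lt i hi)
      have hhmono : MonotoneOn h (Iio F.w) := by
        intro x hx x' hx' hxx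
        by_contra hc
        rw [not_le] at hc
        have h1 : f x ≤ f x' := hf1.monotoneOn hx hx' hxx
        exact (hh x hx).2.2.1 _ hc (h1.trans_lt (hh x' hx').2.1)
      have hhM : gro F.w h ∈ F.M :=
        first_mem hLNS (d := F.κ) (hi.trans hκγ) hqD hqM hf2
          (fun x hx => (hfη x hx).trans hκγ) (fun x hx => ⟨(hh x hx).1, (hh x hx).2.1,
          (hh x hx).2.2.1⟩) (hlκ.trans hκγ).le hwκ.le hlκ.le hκγ
      obtain ⟨g, hg1, hg2, hg3, hg4, hg5⟩ := (hSPL F h hhM).2 hhmono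
      have hfg : gro F.w (fun x => f (g x)) ∈ F.M :=
        comp_mem (d := F.κ) hf2 hg3 hg2 (hwκ.trans hκγ).le hwκ.le hfη hκγ
      rcases hg5 with ⟨c, hc⟩ | hsm
      · have hcl : c < l := by
          rw [← hc 0 hw0]
          exact (hh _ (hg2 0 hw0)).1
        refine ((pun2 F.κ (q c)).1 (hqP c hcl)).thin i hi hi ⟨fun x => f (g x), r, ?_, hfg, hr, ?_⟩
        · intro x hx y hy hxy
          exact hf1 (hg2 x hx) (hg2 y hy) (hg1 hx hy hxy)
        · intro x hx
          have h1 := hh (g x) (hg2 x hx)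
          rw [hc x hx] at h1
          exact ⟨h1.2.1, h1.2.2.2⟩
      · -- the function h (g (succ x)) has successor values
        have hsw : ∀ x < F.w, Order.succ x < F.w := fun x hx => F.g.wlim.succ_lt hx
        have hsuc : ∀ x, ∃ y, x < F.w → h (g (Order.succ x)) = Order.succ y := by
          intro x
          by_cases hx : x < F.w
          · have hsx := hsw x hx
            have h1 := hh (g (Order.succ x)) (hg2 _ hsx)
            have h2 : 0 < h (g (Order.succ x)) := by
              have h3 : h (g 0) < h (g (Order.succ x)) := hsm hw0 hsx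
                (zero_le.trans_lt (Order.lt_succ x))
              exact zero_le.trans_lt h3
            rcases Ordinal.zero_or_succ_or_isSuccLimit (h (g (Order.succ x))) with h4 | h4 | h4
            · exact absurd h4 h2.ne'
            · obtain ⟨y, hy⟩ := h4
              exact ⟨y, fun _ => hy.symm⟩
            · exfalso
              have h5 := h1.2.1
              rw [hcont _ h1.1 h4 i hi] at h5
              obtain ⟨y, hy, hy2⟩ := (limL_lt ⟨ln (q (h (g (Order.succ x)))) i, fun y hy =>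
                hmon y _ hy.le h1.1 i hi⟩).1 h5
              exact h1.2.2.1 y hy hy2
          · exact ⟨0, fun h => absurd h hx⟩
        choose v hv using hsuc
        have hrκ : r ∈ F.P F.κ := bmono i F.κ hi.le hr
        have hvM : gro F.w v ∈ F.M := by
          have h1 : gro F.w (fun x => h (g (Order.succ x))) ∈ F.M :=
            comp_mem (d := F.κ) (w' := F.w) (f := fun x => h (g x)) (g := fun x => Order.succ x)
              hg4 (succ_mem F.g.wlim (hwκ.trans hκγ)) hsw (hwκ.trans hκγ).le hwκ.le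
              (fun x hx => (hh _ (hg2 x hx)).1.trans hlκ) hκγ
          exact pred_mem (d := F.κ) h1 hv hwκ.le
            (fun x hx => (hh _ (hg2 _ (hsw x hx))).1.trans hlκ) hκγ
        have hfin : ∀ x < F.w, v x < ln r j ∧ res r j ∈ nm r j (v x) := by
          intro x hx
          have h1 := hh (g (Order.succ x)) (hg2 _ (hsw x hx))
          rw [hv x hx] at h1
          have h2 : v x < l := (Order.lt_succ _).trans h1.1
          exact hgd (v x) h2 i hi hij _ (not_lt.1 (h1.2.2.1 _ (Order.lt_succ _))) h1.2.1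
            h1.2.2.2
        refine ((pun2 F.κ r).1 hrκ).thin j hj hj ⟨v, res r j, ?_, hvM, ?_, hfin⟩
        · intro x hx y hy hxy
          have h1 : h (g (Order.succ x)) < h (g (Order.succ y)) :=
            hsm (hsw x hx) (hsw y hy) (Order.succ_lt_succ hxy)
          rw [hv x hx, hv y hy] at h1
          exact Order.succ_lt_succ_iff.1 h1
        · obtain ⟨h1, h2⟩ := hfin 0 hw0
          exact (((pun2 F.κ r).1 hrκ).ro j hj hj _ h1).1 h2
  obtain ⟨p, hp, hpl, hpi⟩ := hLMT F l q hl hlκ hqM hqP hdec hbd hsupp hthin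
  refine ⟨p, hp, hpl, ?_, fun i hi => (hpi i hi).1⟩
  intro i hi
  have hij : i ≤ j := Order.lt_succ_iff.1 hi
  have hiκ : i < F.κ := hij.trans_lt hj
  obtain ⟨h1, h2⟩ := hpi i hiκ
  rw [hlow i hij] at h1
  refine ⟨h1, fun x hx => ?_⟩
  rw [h2 x hx, hlowN i hij x (by rw [← h1]; exact hx)]

end Pool.Agent.Helper17.OD.PkGLM
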